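import Mathlib
import Pool.Agent.Lib.helper12.Idem
import Pool.Agent.Lib.helper12.Ladder

namespace Pool.Agent.Results.MP_d63bef_al.Real

open Matrix

variable {K : Type} [Field K] {n : ℕ}

/-- irreducible tridiagonal -/
def ITri (M : Matrix (Fin n) (Fin n) K) : Prop :=
  ∀ i j : Fin n, (i.val + 1 < j.val ∨ j.val + 1 < i.val → M i j = 0) ∧
    (i.val + 1 = j.val ∨ j.val + 1 = i.val → M i j ≠ 0)

/-- the matrix of `X` in the basis formed by the columns of `P` -/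
def inB (P : GL (Fin n) K) (X : Matrix (Fin n) (Fin n) K) : Matrix (Fin n) (Fin n) K :=
  (P⁻¹).val * X * P.val

open Pool.Agent.Lib.helper12.Idem Pool.Agent.Lib.helper12.Ladder

def ch (P Q X Y : Matrix (Fin 4) (Fin 4) ℚ) : Prop :=
  P * Q = 1 ∧ Q * P = 1 ∧ (∀ i j, i ≠ j → (Q * X * P) i j = 0) ∧ ∀ i j : Fin 4,
    (i.val + 1 < j.val ∨ j.val + 1 < i.val → (Q * Y * P) i j = 0) ∧
    (i.val + 1 = j.val ∨ j.val + 1 = i.val → (Q * Y * P) i j ≠ 0)

theorem half {P Q X Y : Matrix (Fin 4) (Fin 4) ℚ} (h : ch P Q X Y) :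
    ∃ g : GL (Fin 4) ℝ, (inB g (X.map (algebraMap ℚ ℝ))).IsDiag ∧
      ITri (inB g (Y.map (algebraMap ℚ ℝ))) ∧
      ∀ i, inB g (X.map (algebraMap ℚ ℝ)) i i = ((Q * X * P) i i : ℝ) := by
  obtain ⟨h1, h2, h3, h4⟩ := h
  have e : ∀ M N : Matrix (Fin 4) (Fin 4) ℚ, (M * N).map (algebraMap ℚ ℝ) =
      M.map (algebraMap ℚ ℝ) * N.map (algebraMap ℚ ℝ) := fun M N => Matrix.map_mul
  let g : GL (Fin 4) ℝ := ⟨P.map (algebraMap ℚ ℝ), Q.map (algebraMap ℚ ℝ),
    by rw [← e, h1]; simp, by rw [← e, h2]; simp⟩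
  have k : ∀ Z : Matrix (Fin 4) (Fin 4) ℚ, inB g (Z.map (algebraMap ℚ ℝ)) =
      (Q * Z * P).map (algebraMap ℚ ℝ) := fun Z => by
    rw [e, e]; rfl
  refine ⟨g, ?_, ?_, fun i => by rw [k]; rfl⟩
  · intro i j hij
    rw [k, Matrix.map_apply, h3 i j hij, map_zero]
  · intro i j
    rw [k, Matrix.map_apply]
    refine ⟨fun h => by rw [(h4 i j).1 h, map_zero], fun h => ?_⟩
    exact (map_ne_zero _).2 ((h4 i j).2 h)

noncomputable def ψ : Matrix (Fin 4) (Fin 4) ℝ →+* Module.End ℂ (Fin 4 → ℂ) :=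
  (Matrix.toLinAlgEquiv' (R := ℂ) (n := Fin 4)).toRingEquiv.toRingHom.comp
    Complex.ofRealHom.mapMatrix

theorem ψ_smul (r : ℝ) (M : Matrix (Fin 4) (Fin 4) ℝ) : ψ (r • M) = (r : ℂ) • ψ M := by
  refine LinearMap.ext fun v => funext fun i => ?_
  simp [ψ, Matrix.toLinAlgEquiv'_apply, Matrix.mulVec, dotProduct, Finset.mul_sum, mul_assoc]

theorem ψ_map (M : Matrix (Fin 4) (Fin 4) ℚ) : ψ (M.map (algebraMap ℚ ℝ)) = fK ℂ 4 M := by
  refine LinearMap.ext fun v => funext fun i => ?_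
  simp [ψ, fK_apply, Matrix.toLinAlgEquiv'_apply, Matrix.mulVec, dotProduct]

theorem span4 {M a b c d : Matrix (Fin 4) (Fin 4) ℝ} (h : M ∈ Submodule.span ℝ {a, b, c, d}) :
    ∃ r s t u : ℝ, ψ M = (r : ℂ) • ψ a + (s : ℂ) • ψ b + (t : ℂ) • ψ c + (u : ℂ) • ψ d := by
  obtain ⟨r, _, h1, rfl⟩ := Submodule.mem_span_insert.1 h
  obtain ⟨s, _, h2, rfl⟩ := Submodule.mem_span_insert.1 h1
  obtain ⟨t, _, h3, rfl⟩ := Submodule.mem_span_insert.1 h2
  obtain ⟨u, rfl⟩ := Submodule.mem_span_singleton.1 h3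
  exact ⟨r, s, t, u, by simp only [map_add, ψ_smul, add_assoc]⟩

theorem quart (M : Matrix (Fin 4) (Fin 4) ℚ) (a b c d : ℚ)
    (h : (M - a • 1) * (M - b • 1) * (M - c • 1) * (M - d • 1) = 0) :
    (fK ℂ 4 M - (a : ℂ) • 1) * (fK ℂ 4 M - (b : ℂ) • 1) * (fK ℂ 4 M - (c : ℂ) • 1) *
      (fK ℂ 4 M - (d : ℂ) • 1) = 0 := by
  simpa only [map_mul, map_sub, fK_smul, map_one, map_zero] using congrArg (fK ℂ 4) h

def A0 : Matrix (Fin 4) (Fin 4) ℚ := !![0, 0, 0, 0; 1, 3, 0, 0; 0, 1, 8, 0; 0, 0, 1, 15]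
def B0 : Matrix (Fin 4) (Fin 4) ℚ := !![0, -51, 0, 0; 0, 3, -104, 0; 0, 0, 8, -111; 0, 0, 0, 15]
def PA : Matrix (Fin 4) (Fin 4) ℚ :=
  !![-360, 0, 0, 0; 120, 60, 0, 0; -15, -12, -7, 0; 1, 1, 1, 1]
def QA : Matrix (Fin 4) (Fin 4) ℚ :=
  !![-1/360, 0, 0, 0; 1/180, 1/60, 0, 0; -1/280, -1/35, -1/7, 0; 1/1260, 1/84, 1/7, 1]

theorem c1 : ch PA QA A0 B0 := by unfold ch; decide +kernel
theorem c2 : ch !![1, -17, 663, -16354; 0, 1, -104, 4810; 0, 0, 5, -555; 0, 0, 0, 35]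
    !![1, 17, 221, 8177/5; 0, 1, 104/5, 962/5; 0, 0, 1/5, 111/35; 0, 0, 0, 1/35] B0 A0 := by
  unfold ch; decide +kernel

theorem irr : ∀ W : Submodule ℂ (Fin 4 → ℂ), W.map (fK ℂ 4 A0) ≤ W → W.map (fK ℂ 4 B0) ≤ W →
    W = ⊥ ∨ W = ⊤ :=
  irred ℂ A0 B0 ![[(1, [])], [(1, [true])], [(-3, [true]), (1, [true, true])],
      [(24, [true]), (-11, [true, true]), (1, [true, true, true])]]
    ![[(-900, []), (945/2, [true]), (-65, [true, true]), (5/2, [true, true, true])],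
      [(300, []), (-4955/34, [true]), (330/17, [true, true]), (-25/34, [true, true, true])],
      [(-75/2, []), (15335/884, [true]), (-500/221, [true, true]), (75/884, [true, true, true])],
      [(5/2, []), (-36575/32708, [true]), (1175/8177, [true, true]),
        (-175/32708, [true, true, true])]]
    [(-1/360, [false, false, false]), (13/180, [false, false]), (-21/40, [false]), (1, [])]
    (fun i => Matrix.single i 0 1 * !![1, 17, 221, 8177/5; 0, 0, 0, 0; 0, 0, 0, 0; 0, 0, 0, 0])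
    (fun j => Matrix.single 0 j 1)
    (by decide +kernel) (by decide +kernel) (by decide +kernel)

theorem pick (a b c d : ℝ) (ha : a * (a - 3) * (a - 8) * (a - 15) = 0)
    (hb : b * (b - 3) * (b - 8) * (b - 15) = 0) (hc : c * (c - 3) * (c - 8) * (c - 15) = 0)
    (hd : d * (d - 3) * (d - 8) * (d - 15) = 0) (h1 : a + b + c + d = 26)
    (h2 : a - d = 3 * (b - c)) :
    (a = 0 ∧ b = 3 ∧ c = 8 ∧ d = 15) ∨ (a = 15 ∧ b = 8 ∧ c = 3 ∧ d = 0) := by
  simp only [mul_eq_zero, sub_eq_zero] at ha hb hc hd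
  rcases ha with ((rfl | rfl) | rfl) | rfl <;> rcases hb with ((rfl | rfl) | rfl) | rfl <;>
    rcases hc with ((rfl | rfl) | rfl) | rfl <;> rcases hd with ((rfl | rfl) | rfl) | rfl <;>
    first | (norm_num; done) | (norm_num at h1; done) | (norm_num at h2; done)

theorem core (x y z : Module.End ℂ (Fin 4 → ℂ)) (h1 : x * y - y * x = (2 : ℂ) • x + (2 : ℂ) • y)
    (h2 : y * z - z * y = (2 : ℂ) • y + (2 : ℂ) • z)
    (h3 : z * x - x * z = (2 : ℂ) • z + (2 : ℂ) • x) (a0 a1 a2 a3 b0 b1 b2 b3 : ℝ)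
    (hA : fK ℂ 4 A0 = (a0 : ℂ) • 1 + (a1 : ℂ) • x + (a2 : ℂ) • y + (a3 : ℂ) • (x * y))
    (hB : fK ℂ 4 B0 = (b0 : ℂ) • 1 + (b1 : ℂ) • y + (b2 : ℂ) • z + (b3 : ℂ) • (y * z)) :
    False := by
  obtain ⟨μ, hμ, hmax⟩ := Set.exists_max_image {μ | y.HasEigenvalue μ} Complex.re
    y.finite_hasEigenvalue (Module.End.exists_eigenvalue y)
  obtain ⟨v0, hv, hv0⟩ := Module.End.HasEigenvalue.exists_hasEigenvector hμ
  rw [Module.End.mem_eigenspace_iff] at hv
  have r1 : ∀ w, y (x w) = x (y w) - (2 : ℂ) • x w - (2 : ℂ) • y w := fun w => by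
    have := LinearMap.congr_fun h1 w
    simp only [LinearMap.sub_apply, LinearMap.add_apply, LinearMap.smul_apply,
      Module.End.mul_apply] at this
    linear_combination (norm := module) -this
  have r2 : ∀ w, y (z w) = z (y w) + (2 : ℂ) • y w + (2 : ℂ) • z w := fun w => by
    have := LinearMap.congr_fun h2 w
    simp only [LinearMap.sub_apply, LinearMap.add_apply, LinearMap.smul_apply,
      Module.End.mul_apply] at this
    linear_combination (norm := module) this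
  have r3 : ∀ w, z (x w) = x (z w) + (2 : ℂ) • z w + (2 : ℂ) • x w := fun w => by
    have := LinearMap.congr_fun h3 w
    simp only [LinearMap.sub_apply, LinearMap.add_apply, LinearMap.smul_apply,
      Module.End.mul_apply] at this
    linear_combination (norm := module) this
  have z0 : z v0 = (-μ) • v0 := by
    by_contra h
    have e : y (z v0 + μ • v0) = (μ + 2) • (z v0 + μ • v0) := by
      rw [map_add, r2, map_smul, hv, map_smul]; module
    have := hmax (μ + 2) (Module.End.hasEigenvalue_of_hasEigenvector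
      ⟨Module.End.mem_eigenspace_iff.2 e, fun e0 => h (by linear_combination (norm := module) e0)⟩)
    simp at this
    linarith
  let v : ℕ → Fin 4 → ℂ := fun k => Nat.rec v0 (fun k w => x w + (μ - 2 * k) • w) k
  have v00 : v 0 = v0 := rfl
  have vs : ∀ k, x (v k) = v (k + 1) - (μ - 2 * k) • v k := fun k => by
    show _ = x (v k) + (μ - 2 * k) • v k - _
    module
  have vd : ∀ k, v (k + 1) = x (v k) + (μ - 2 * k) • v k := fun k => rfl
  have hy : ∀ k, y (v k) = (μ - 2 * k) • v k := fun k => by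
    induction k with
    | zero => rw [v00]; simpa using hv
    | succ k ih =>
      rw [vd, map_add, r1, map_smul, ih, map_smul]
      push_cast
      module
  have hz : ∀ k, z (v (k + 1)) = (-(μ - 2 * (k + 1))) • v (k + 1) +
      (-4 * (k + 1) * (μ - k)) • v k := fun k => by
    induction k with
    | zero =>
      rw [vd, map_add, r3, map_smul]
      show x (z v0) + _ • z v0 + _ • x v0 + _ • z v0 = _ • (x v0 + _ • v0) + _ • v0
      rw [z0, map_smul]
      push_cast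
      module
    | succ k ih =>
      rw [vd (k + 1), map_add, r3, map_smul, ih, map_add, map_smul, map_smul, vs k]
      push_cast
      module
  let θ : ℕ → ℂ := fun k => a0 + a2 * (μ - 2 * k) - (a1 + a3 * (μ - 2 * k)) * (μ - 2 * k)
  let α : ℕ → ℂ := fun k => a1 + a3 * (μ - 2 * k)
  let t : ℕ → ℂ := fun k => b0 + b1 * (μ - 2 * k) - (b2 + b3 * (μ - 2 * k)) * (μ - 2 * k)
  let β : ℕ → ℂ := fun k => (-4 * (k + 1) * (μ - k)) * (b2 + b3 * (μ - 2 * k))
  have eA : ∀ k, fK ℂ 4 A0 (v k) = θ k • v k + α k • v (k + 1) := fun k => by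
    rw [hA]
    simp only [LinearMap.add_apply, LinearMap.smul_apply, Module.End.mul_apply,
      Module.End.one_apply, hy, map_smul, vs, θ, α]
    module
  have eB0 : fK ℂ 4 B0 (v 0) = t 0 • v 0 := by
    rw [hB, v00]
    simp only [LinearMap.add_apply, LinearMap.smul_apply, Module.End.mul_apply,
      Module.End.one_apply, z0, map_smul, hv, t]
    push_cast
    module
  have eB : ∀ k, fK ℂ 4 B0 (v (k + 1)) = t (k + 1) • v (k + 1) + β k • v k := fun k => by
    rw [hB]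
    simp only [LinearMap.add_apply, LinearMap.smul_apply, Module.End.mul_apply,
      Module.End.one_apply, hz, map_add, hy, map_smul, t, β]
    push_cast
    module
  obtain ⟨v4, v3, b, hb⟩ := ladder 3 (by simp) y _ _ (fun k => μ - 2 * k)
    (fun i j e => by
      have : (i : ℂ) = j := by linear_combination (-1 / 2 : ℂ) * e
      exact_mod_cast this) v hv0 hy θ α t β eA eB0 eB irr
  have m3 : μ = 3 := by
    have := hz 3
    rw [v4, map_zero, smul_zero, zero_add] at this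
    have := (smul_eq_zero.1 this.symm).resolve_right v3
    push_cast at this
    linear_combination (-1 / 16 : ℂ) * this
  obtain ⟨d1, d2, d3, d4, d5, d6⟩ := data _ _ v b hb v4 θ α t β eA eB0 eB
    ![(0 : ℚ), (3 : ℚ), (8 : ℚ), (15 : ℚ)] (quart A0 0 3 8 15 (by decide +kernel))
    (quart B0 0 3 8 15 (by decide +kernel))
  rw [fK_trace, (by decide +kernel : A0.trace = 26)] at d3
  rw [fK_trace, (by decide +kernel : B0.trace = 26)] at d4
  rw [← map_mul, fK_trace, (by decide +kernel : (A0 * B0).trace = 32)] at d5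
  rw [← map_mul, ← map_mul, fK_trace, (by decide +kernel : (A0 * A0 * B0).trace = 64)] at d6
  obtain ⟨θ', hθ, gθ⟩ : ∃ f : ℕ → ℝ, (∀ k, θ k = f k) ∧ ∀ k,
      f k = a0 + a2 * (3 - 2 * k) - (a1 + a3 * (3 - 2 * k)) * (3 - 2 * k) :=
    ⟨_, fun k => by simp [θ, m3], fun _ => rfl⟩
  obtain ⟨t', ht, gt⟩ : ∃ f : ℕ → ℝ, (∀ k, t k = f k) ∧ ∀ k,
      f k = b0 + b1 * (3 - 2 * k) - (b2 + b3 * (3 - 2 * k)) * (3 - 2 * k) :=
    ⟨_, fun k => by simp [t, m3], fun _ => rfl⟩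
  obtain ⟨φ, hφ, gφ⟩ : ∃ f : ℕ → ℝ, (∀ k, α k * β k = f k) ∧ ∀ k, f k =
      (a1 + a3 * (3 - 2 * k)) * ((-4 * (k + 1) * (3 - k)) * (b2 + b3 * (3 - 2 * k))) :=
    ⟨_, fun k => by simp [α, β, m3], fun _ => rfl⟩
  simp only [hθ, ht, hφ, Matrix.cons_val_zero, Matrix.cons_val_one, Matrix.cons_val,
    Rat.cast_zero, Rat.cast_ofNat, sub_zero] at d1 d2 d3 d4 d5 d6
  replace d3 := congrArg Complex.re d3
  replace d4 := congrArg Complex.re d4
  replace d5 := congrArg Complex.re d5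
  replace d6 := congrArg Complex.re d6
  simp only [← Complex.ofReal_mul, ← Complex.ofReal_add, ← Complex.ofReal_pow, Complex.ofReal_re,
    Complex.re_ofNat] at d3 d4 d5 d6
  replace d1 : ∀ k < 4, θ' k * (θ' k - 3) * (θ' k - 8) * (θ' k - 15) = 0 := fun k hk =>
    Complex.ofReal_injective (by push_cast; exact d1 k hk)
  replace d2 : ∀ k < 4, t' k * (t' k - 3) * (t' k - 8) * (t' k - 15) = 0 := fun k hk =>
    Complex.ofReal_injective (by push_cast; exact d2 k hk)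
  have s1 := pick _ _ _ _ (d1 0 (by omega)) (d1 1 (by omega)) (d1 2 (by omega)) (d1 3 (by omega))
    d3.symm (by simp only [gθ]; push_cast; ring)
  have s2 := pick _ _ _ _ (d2 0 (by omega)) (d2 1 (by omega)) (d2 2 (by omega)) (d2 3 (by omega))
    d4.symm (by simp only [gt]; push_cast; ring)
  have a3' : θ' 0 - 2 * θ' 1 + θ' 2 = -8 * a3 := by simp only [gθ]; push_cast; ring
  have b3' : t' 0 - 2 * t' 1 + t' 2 = -8 * b3 := by simp only [gt]; push_cast; ring
  simp only [gφ] at d5 d6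
  push_cast at d5 d6
  have fin : ∀ u w : ℝ, a1 * b2 = u → a1 + b2 = w → w ^ 2 - 4 * u = -1 → False :=
    fun u w e1 e2 e3 => by
      have : (a1 - b2) ^ 2 = -1 := by rw [← e3, ← e1, ← e2]; ring
      linarith [sq_nonneg (a1 - b2)]
  rcases s1 with ⟨e0, e1, e2, e3⟩ | ⟨e0, e1, e2, e3⟩ <;>
    rcases s2 with ⟨f0, f1, f2, f3⟩ | ⟨f0, f1, f2, f3⟩ <;>
    rw [e0, e1, e2, e3, f0, f1, f2, f3] at d5 d6 <;> rw [e0, e1, e2] at a3' <;>
    rw [f0, f1, f2] at b3' <;>
    obtain rfl : a3 = -1 / 4 := by linarith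
  all_goals obtain rfl : b3 = -1 / 4 := by linarith
  · exact fin (125 / 16) (11 / 2) (by linarith) (by linarith) (by norm_num)
  · exact fin (5 / 16) (1 / 2) (by linarith) (by linarith) (by norm_num)
  · exact fin (5 / 16) (1 / 2) (by linarith) (by linarith) (by norm_num)
  · exact fin (85 / 16) (-9 / 2) (by linarith) (by linarith) (by norm_num)

theorem result : ∃ A B : Matrix (Fin 4) (Fin 4) ℝ,
    (∃ P, (inB P A).IsDiag ∧ ITri (inB P B) ∧
      inB P A 0 0 - inB P A 3 3 = 3 * (inB P A 1 1 - inB P A 2 2)) ∧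
    (∃ P, (inB P B).IsDiag ∧ ITri (inB P A)) ∧
    ∀ x y z : Matrix (Fin 4) (Fin 4) ℝ, x * y - y * x = (2 : ℝ) • x + (2 : ℝ) • y →
      y * z - z * y = (2 : ℝ) • y + (2 : ℝ) • z → z * x - x * z = (2 : ℝ) • z + (2 : ℝ) • x →
      A ∉ Submodule.span ℝ {1, x, y, x * y} ∨ B ∉ Submodule.span ℝ {1, y, z, y * z} := by
  refine ⟨A0.map (algebraMap ℚ ℝ), B0.map (algebraMap ℚ ℝ), ?_,
    (half c2).imp fun _ h => ⟨h.1, h.2.1⟩, fun x y z h1 h2 h3 => ?_⟩
  · obtain ⟨g, h1, h2, h3⟩ := half c1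
    refine ⟨g, h1, h2, ?_⟩
    have : (QA * A0 * PA) 0 0 - (QA * A0 * PA) 3 3 =
        3 * ((QA * A0 * PA) 1 1 - (QA * A0 * PA) 2 2) := by decide +kernel
    rw [h3, h3, h3, h3]
    exact_mod_cast this
  · by_contra hc
    push Not at hc
    obtain ⟨a0, a1, a2, a3, hA⟩ := span4 hc.1
    obtain ⟨b0, b1, b2, b3, hB⟩ := span4 hc.2
    have k1 := congrArg ψ h1
    have k2 := congrArg ψ h2
    have k3 := congrArg ψ h3
    simp only [map_sub, map_add, map_mul, map_one, ψ_smul, ψ_map, Complex.ofReal_ofNat]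
      at k1 k2 k3 hA hB
    exact core _ _ _ k1 k2 k3 _ _ _ _ _ _ _ _ hA hB

end Pool.Agent.Results.MP_d63bef_al.Real
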